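import Pool.Agent.Lib.MP_7682a8_an.KB.Iface

/-!
MP_7682a8_an, project KB, module ARF: the area theorem for `q`.
-/

set_option autoImplicit false

open Metric Set MeasureTheory

namespace Pool.Agent.Lib.MP_7682a8_an.KB.H76

open Pool.Agent.Lib.MP_7682a8_an.KB

theorem arf (hQDE : QdeStmt) (hTOP : TopStmt) (hARE : AreStmt) (hPOL : PolStmt)
    (hCON : ConStmt) : ArfStmt := by
  intro h g δ ξ ε ρ m hOm hBr hSw hε hερ hρ hm hcirc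
  obtain ⟨hinj, hdisj, hann⟩ := hTOP h g δ ξ hOm hBr
  obtain ⟨hca, hcb, -, -, -, hab⟩ := hCON h g δ ξ hOm hBr
  have hmem : ∀ z : ℂ, ε < ‖z‖ → ‖z‖ < ρ → z ∈ ball (0 : ℂ) 1 := by
    intro z _ h2
    rw [mem_ball_zero_iff]
    linarith
  have hne : ∀ z : ℂ, ε < ‖z‖ → z ≠ 0 := by
    intro z h1 h0
    rw [h0, norm_zero] at h1
    linarith
  have hA := hARE (qq ξ) (aa h δ ξ) (bb g δ ξ) ε ρ m hε hερ hm
    (fun z h1 h2 => hQDE h g δ ξ hOm hBr z (hmem z h1 h2) (hne z h1))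
    (fun z h1 h2 => by
      have h3 := hab hSw z (hmem z h1 h2)
      have h4 : ‖z‖ * ‖aa h δ ξ z‖ ≤ 1 * ‖aa h δ ξ z‖ :=
        mul_le_mul_of_nonneg_right (by linarith) (norm_nonneg _)
      linarith)
    (fun z hz z' hz' he => hinj (hmem z hz.1 hz.2) (hmem z' hz'.1 hz'.2) he)
    (fun z z' h1 h2 h3 h4 => hdisj z (hmem z h1 h2) z' (hmem z' h3 h4))
    (fun z h1 h2 => hann ε m hε (by linarith) hm hcirc z h1.le (by linarith))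
  have hsub : {z : ℂ | ε ≤ ‖z‖ ∧ ‖z‖ ≤ ρ} ⊆ ball (0 : ℂ) 1 \ {0} := by
    rintro z ⟨h1, h2⟩
    refine ⟨?_, ?_⟩
    · rw [mem_ball_zero_iff]
      linarith
    · intro h0
      rw [mem_singleton_iff] at h0
      rw [h0, norm_zero] at h1
      linarith
  have hcont : ContinuousOn (fun z => ‖aa h δ ξ z‖ ^ 2 - ‖bb g δ ξ z‖ ^ 2)
      {z : ℂ | ε ≤ ‖z‖ ∧ ‖z‖ ≤ ρ} :=
    ((hca.mono hsub).norm.pow 2).sub ((hcb.mono hsub).norm.pow 2)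
  have hP := hPOL (fun z => ‖aa h δ ξ z‖ ^ 2 - ‖bb g δ ξ z‖ ^ 2) ε ρ hε hερ hcont
  rw [hP] at hA
  exact hA

end Pool.Agent.Lib.MP_7682a8_an.KB.H76
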