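import Pool.Agent.Lib.MP_7682a8_an.KB.Iface

/-!
MP_7682a8_an, project KB, module PWB: the pointwise inequality of Clunie and Sheil-Small.
-/

set_option autoImplicit false

open Metric Set

namespace Pool.Agent.Lib.MP_7682a8_an.KB.H76

open Pool.Agent.Lib.MP_7682a8_an.KB

theorem pwb : PwbStmt := by
  intro a b r hr0 hr1 hb
  have h1r : 0 < 1 + r := by linarith
  have hre : (a - b).re ≤ (1 + r) * ‖a‖ := by
    have h1 : (a - b).re ≤ ‖a - b‖ := Complex.re_le_norm _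
    have h2 : ‖a - b‖ ≤ ‖a‖ + ‖b‖ := norm_sub_le _ _
    nlinarith
  have hb2 : ‖b‖ ^ 2 ≤ r ^ 2 * ‖a‖ ^ 2 := by
    have := pow_le_pow_left₀ (norm_nonneg b) hb 2
    nlinarith
  have hlam : 0 ≤ (1 - r) / (1 + r) := div_nonneg (by linarith) h1r.le
  have e1 : (a - b - 1).re = (a - b).re - 1 := by simp
  rw [e1]
  have e2 : 1 - 2 * r / (1 + r) = (1 - r) / (1 + r) := by
    field_simp
    ring
  rw [e2]
  have h3 : 2 * ((1 - r) / (1 + r)) * ((a - b).re - 1) ≤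
      2 * ((1 - r) / (1 + r)) * ((1 + r) * ‖a‖ - 1) :=
    mul_le_mul_of_nonneg_left (by linarith) (by positivity)
  have h4 : (1 - r) / (1 + r) * ((1 + r) * ‖a‖ - 1) ^ 2 =
      (1 - r ^ 2) * ‖a‖ ^ 2 - ((1 - r) / (1 + r) +
        2 * ((1 - r) / (1 + r)) * ((1 + r) * ‖a‖ - 1)) := by
    field_simp
    ring
  have h5 : 0 ≤ (1 - r) / (1 + r) * ((1 + r) * ‖a‖ - 1) ^ 2 := by positivity
  nlinarith

end Pool.Agent.Lib.MP_7682a8_an.KB.H76
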